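import Pool.Agent.Run7.h952.AW.Ext

/-!
# Semidirect products, and Coxeter groups of arbitrary rank
-/

set_option autoImplicit false
set_option linter.unusedSectionVars false
set_option linter.unusedSimpArgs false

namespace Run7.h952.AW

open Pool.Agent.Helper741 CoxeterSystem Pool.Agent.K7.H87.FJ6
open Pool.Agent.Y110.FJ
open Pool.Agent.Y462.SS (Closed)
open Run7.h952.AR

variable {C : ∀ (G : Type) [Group G], Prop}

/-- semidirect products -/
theorem semi_sh (hC : ClosedE C)
    (hcox : ∀ (S : Type) [Finite S] (A : CoxeterMatrix S), C A.Group)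
    (B : Type) (M : CoxeterMatrix B) (po : B → ℕ) (ho : Adm M po)
    (Q : Type) [Group Q] (α : Q →* MulAut (Sh M po))
    (hg : ∀ g : Q, ∃ (σ : Equiv.Perm B) (n : Sh M po), (∀ x y, M (σ x) (σ y) = M x y) ∧
      (∀ x, po (σ x) = po x) ∧ ∀ b, α g (Sh.gen M po b) = n * Sh.gen M po (σ b) * n⁻¹) :
    C (Sh M po ⋊[α] Q) ↔ C (Sh M po) ∧ C Q := by
  constructor
  · intro h
    exact ⟨hC.base.of_injective _ _ SemidirectProduct.inl SemidirectProduct.inl_injective h,
      hC.base.of_injective _ _ SemidirectProduct.inr SemidirectProduct.inr_injective h⟩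
  · rintro ⟨h1, h2⟩
    have hN : (SemidirectProduct.inl : Sh M po →* Sh M po ⋊[α] Q).range.Normal := by
      rw [SemidirectProduct.range_inl_eq_ker_rightHom]
      infer_instance
    have hQ : C ((Sh M po ⋊[α] Q) ⧸ (SemidirectProduct.inl : Sh M po →* Sh M po ⋊[α] Q).range) := by
      have h3 : ∀ (K : Subgroup (Sh M po ⋊[α] Q)) [K.Normal],
          K = (SemidirectProduct.rightHom (φ := α)).ker → C ((Sh M po ⋊[α] Q) ⧸ K) := by
        intro K _ hK
        subst hK
        exact hC.base.of_injective _ _ (QuotientGroup.kerLift (SemidirectProduct.rightHom (φ := α)))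
          (QuotientGroup.kerLift_injective _) h2
      exact h3 _ SemidirectProduct.range_inl_eq_ker_rightHom
    refine ext_sh hC hcox B M po ho h1 _ SemidirectProduct.inl SemidirectProduct.inl_injective hQ ?_
    intro g
    obtain ⟨σ, n, hσ, hp, hn⟩ := hg g.right
    refine ⟨σ, g.left * n, hσ, hp, fun b => ?_⟩
    have h4 : g = SemidirectProduct.inl g.left * SemidirectProduct.inr g.right :=
      (SemidirectProduct.inl_left_mul_inr_right g).symm
    have h5 : SemidirectProduct.inr g.right * SemidirectProduct.inl (Sh.gen M po b) *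
        (SemidirectProduct.inr g.right)⁻¹ =
        (SemidirectProduct.inl (n * Sh.gen M po (σ b) * n⁻¹) : Sh M po ⋊[α] Q) := by
      rw [← hn, ← map_inv]
      exact (SemidirectProduct.inl_aut (φ := α) g.right (Sh.gen M po b)).symm
    calc g * (SemidirectProduct.inl (Sh.gen M po b) : Sh M po ⋊[α] Q) * g⁻¹
        = SemidirectProduct.inl g.left * (SemidirectProduct.inr g.right *
          SemidirectProduct.inl (Sh.gen M po b) * (SemidirectProduct.inr g.right)⁻¹) *
          (SemidirectProduct.inl g.left)⁻¹ := by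
          conv_lhs => rw [h4]
          group
      _ = SemidirectProduct.inl (g.left * n * Sh.gen M po (σ b) * (g.left * n)⁻¹) := by
          rw [h5]
          simp only [map_mul, map_inv]
          group

/-- the braid relation for involutions -/
theorem alt_iff {G : Type} [Group G] (a b : G) (ha : a * a = 1) (hb : b * b = 1) (m : ℕ) :
    alt a b m = alt b a m ↔ (a * b) ^ m = 1 := by
  have ha' : a⁻¹ = a := inv_eq_of_mul_eq_one_left ha
  have hb' : b⁻¹ = b := inv_eq_of_mul_eq_one_left hb
  have hba : (b * a)⁻¹ = a * b := by rw [mul_inv_rev, ha', hb']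
  have h1 : alt a b m * (alt b a m)⁻¹ = (a * b) ^ m := by
    rcases Nat.even_or_odd m with ⟨k, hk⟩ | ⟨k, hk⟩
    · rw [hk, ← two_mul, alt_mul_two, alt_mul_two, ← inv_pow, hba, ← pow_add, two_mul]
    · rw [hk, alt_mul_two_add_one, alt_mul_two_add_one, mul_inv_rev, ← inv_pow, hba, hb',
        pow_succ, two_mul, pow_add]
      have h2 : a * b * (a * b) ^ k = (a * b) ^ k * (a * b) := by rw [← pow_succ', pow_succ]
      calc (a * b) ^ k * a * (b * (a * b) ^ k) = (a * b) ^ k * (a * b * (a * b) ^ k) := by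
            simp only [mul_assoc]
        _ = _ := by rw [h2]; simp only [mul_assoc]
  rw [← h1, mul_inv_eq_one]

/-- the Coxeter group as a Shephard group -/
theorem cox_iso {B : Type} (M : CoxeterMatrix B) :
    ∃ F : Sh M (fun _ => 2) ≃* M.Group, ∀ b, F (Sh.gen M (fun _ => 2) b) = M.simple b := by
  have hsq : ∀ b, M.simple b * M.simple b = 1 := M.toCoxeterSystem.simple_mul_simple_self
  have hpw : ∀ a b, (M.simple a * M.simple b) ^ M a b = 1 :=
    M.toCoxeterSystem.simple_mul_simple_pow
  have hg : ∀ b, Sh.gen M (fun _ => 2) b * Sh.gen M (fun _ => 2) b = 1 := by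
    intro b
    rw [← pow_two]
    exact Sh.pow b
  let F : Sh M (fun _ => 2) →* M.Group := Sh.lift (fun b => M.simple b)
    (fun a b => (alt_iff _ _ (hsq a) (hsq b) _).2 (hpw a b)) (fun b => by rw [pow_two]; exact hsq b)
  have hF : ∀ b, F (Sh.gen M (fun _ => 2) b) = M.simple b := fun b => Sh.lift_gen _ _ _ _
  let H : M.Group →* Sh M (fun _ => 2) := M.toCoxeterSystem.lift
    ⟨fun b => Sh.gen M (fun _ => 2) b, fun a b => (alt_iff _ _ (hg a) (hg b) _).1 (Sh.rel a b)⟩
  have hH : ∀ b, H (M.simple b) = Sh.gen M (fun _ => 2) b :=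
    fun b => M.toCoxeterSystem.lift_apply_simple _ b
  refine ⟨MonoidHom.toMulEquiv F H ?_ ?_, hF⟩
  · apply Sh.hom_ext
    intro b
    rw [MonoidHom.comp_apply, hF, hH]
    rfl
  · apply M.toCoxeterSystem.ext_simple
    intro b
    show F (H (M.simple b)) = M.simple b
    rw [hH, hF]

theorem adm_two {B : Type} (M : CoxeterMatrix B) : Adm M (fun _ => 2) :=
  ⟨fun _ => even_two, fun _ _ _ => rfl⟩

/-- Coxeter groups of arbitrary rank are in the class -/
theorem cox_mem (hC : ClosedE C)
    (hcox : ∀ (S : Type) [Finite S] (A : CoxeterMatrix S), C A.Group)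
    (B : Type) (M : CoxeterMatrix B) : C (Sh M (fun _ => 2)) := by
  rw [main_inf hC hcox B M (fun _ => 2) (adm_two M)]
  intro A _ ι hι _
  obtain ⟨F, -⟩ := cox_iso (pull M ι hι)
  exact hC.base.of_injective _ _ F.toMonoidHom F.injective (hcox A _)

/-- **extensions of Coxeter groups by groups of symmetries** -/
theorem ext_cox (hC : ClosedE C)
    (hcox : ∀ (S : Type) [Finite S] (A : CoxeterMatrix S), C A.Group)
    (B : Type) (M : CoxeterMatrix B)
    (G : Type) [Group G] (i : M.Group →* G) (hi : Function.Injective i) [i.range.Normal]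
    (hQ : C (G ⧸ i.range))
    (hg : ∀ g : G, ∃ (σ : Equiv.Perm B) (n : M.Group), (∀ x y, M (σ x) (σ y) = M x y) ∧
      ∀ b, g * i (M.simple b) * g⁻¹ = i (n * M.simple (σ b) * n⁻¹)) :
    C G := by
  obtain ⟨F, hF⟩ := cox_iso M
  have hr : (i.comp F.toMonoidHom).range = i.range := by
    rw [MonoidHom.range_comp, MonoidHom.range_eq_top.2 F.surjective, MonoidHom.range_eq_map]
  have hn : (i.comp F.toMonoidHom).range.Normal := by rw [hr]; infer_instance
  refine ext_sh hC hcox B M (fun _ => 2) (adm_two M) (cox_mem hC hcox B M) G (i.comp F.toMonoidHom)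
    (hi.comp F.injective) ?_ ?_
  · have h3 : ∀ (K : Subgroup G) [K.Normal], K = i.range → C (G ⧸ K) := by
      intro K _ hK
      subst hK
      exact hQ
    exact h3 _ hr
  · intro g
    obtain ⟨σ, n, hσ, hn⟩ := hg g
    refine ⟨σ, F.symm n, hσ, fun _ => rfl, fun b => ?_⟩
    show g * i (F (Sh.gen M _ b)) * g⁻¹ = i (F (F.symm n * Sh.gen M _ (σ b) * (F.symm n)⁻¹))
    have h5 : F (F.symm n * Sh.gen M _ (σ b) * (F.symm n)⁻¹) = n * M.simple (σ b) * n⁻¹ := by
      rw [map_mul, map_mul, map_inv, F.apply_symm_apply, hF]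
    rw [hF, hn, h5]

end Run7.h952.AW
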