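import Mathlib

/-!
# Finite approximations of automorphisms of Coxeter matrices

Let `σ` be an automorphism of a Coxeter matrix `M` on a set `B` which has finitely many orbits. The set
`B` is replaced by the finite set of the orbits of `σ ^ N`; the label of two such orbits is the label of
two representatives which are close to each other, and infinity if there are none.
-/

set_option autoImplicit false

namespace Run7.h952.AW

section pos

variable {B : Type} (σ : Equiv.Perm B)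

/-- the orbit of `x` is infinite -/
def Infi (x : B) : Prop := ∀ n : ℤ, (σ ^ n) x = x → n = 0

variable {σ}

theorem zadd (m n : ℤ) (x : B) : (σ ^ (m + n)) x = (σ ^ m) ((σ ^ n) x) := by
  rw [zpow_add, Equiv.Perm.mul_apply]

theorem Infi.zpow {x : B} (h : Infi σ x) (i : ℤ) : Infi σ ((σ ^ i) x) := by
  intro n hn
  apply h n
  have h1 : (σ ^ i) ((σ ^ n) x) = (σ ^ i) x := by
    rw [← zadd, add_comm, zadd, hn]
  exact (σ ^ i).injective h1

theorem infi_zpow {x : B} (i : ℤ) : Infi σ ((σ ^ i) x) ↔ Infi σ x := by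
  refine ⟨fun h => ?_, fun h => h.zpow i⟩
  have h1 := h.zpow (-i)
  rwa [← zadd, neg_add_cancel, zpow_zero, Equiv.Perm.one_apply] at h1

theorem Infi.inj {x : B} (h : Infi σ x) {m n : ℤ} (h1 : (σ ^ m) x = (σ ^ n) x) : m = n := by
  have h2 : (σ ^ (m - n)) x = x := by
    rw [sub_eq_neg_add, zadd, h1, ← zadd, neg_add_cancel, zpow_zero, Equiv.Perm.one_apply]
  have := h _ h2
  omega

variable (σ)

theorem exists_pos : ∃ pos : B → ℤ, ∀ x, Infi σ x → ∀ n : ℤ, pos ((σ ^ n) x) = pos x + n := by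
  obtain ⟨rep, hrep⟩ : ∃ rep : B → B, rep = fun x => (Quotient.mk (Equiv.Perm.SameCycle.setoid σ) x).out :=
    ⟨_, rfl⟩
  have h1 : ∀ x, ∃ i : ℤ, (σ ^ i) (rep x) = x := by
    intro x
    rw [hrep]
    exact Quotient.exact (Quotient.out_eq (Quotient.mk (Equiv.Perm.SameCycle.setoid σ) x))
  have h2 : ∀ x (n : ℤ), rep ((σ ^ n) x) = rep x := by
    intro x n
    rw [hrep]
    have h3 : Quotient.mk (Equiv.Perm.SameCycle.setoid σ) ((σ ^ n) x) =
        Quotient.mk (Equiv.Perm.SameCycle.setoid σ) x := (Quotient.sound (show σ.SameCycle x _ from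
          ⟨n, rfl⟩)).symm
    show (Quotient.mk (Equiv.Perm.SameCycle.setoid σ) ((σ ^ n) x)).out = _
    rw [h3]
  choose pos hpos using h1
  refine ⟨pos, fun x hx n => ?_⟩
  have h3 : Infi σ (rep x) := by
    have h4 := hx
    rw [← hpos x] at h4
    exact (infi_zpow _).1 h4
  apply h3.inj
  have h4 := hpos ((σ ^ n) x)
  rw [h2] at h4
  rw [h4, add_comm, zadd, hpos]

end pos

/-- the orbits of `σ ^ N` -/
def per {B : Type} (σ : Equiv.Perm B) (N : ℤ) : Setoid B where
  r x y := ∃ m : ℤ, (σ ^ (N * m)) x = y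
  iseqv :=
    { refl := fun x => ⟨0, by simp⟩
      symm := by
        rintro x y ⟨m, rfl⟩
        exact ⟨-m, by rw [← zadd]; simp⟩
      trans := by
        rintro x y z ⟨m, rfl⟩ ⟨n, rfl⟩
        exact ⟨n + m, by rw [← zadd]; ring_nf⟩ }

section

variable {B : Type} {σ : Equiv.Perm B} {M : CoxeterMatrix B}

theorem inv_zpow (hσ : ∀ x y, M (σ x) (σ y) = M x y) (n : ℤ) (x y : B) :
    M ((σ ^ n) x) ((σ ^ n) y) = M x y := by
  have h1 : ∀ (n : ℕ) (x y : B), M ((σ ^ n) x) ((σ ^ n) y) = M x y := by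
    intro n
    induction n with
    | zero => intro x y; rfl
    | succ n ih =>
      intro x y
      rw [pow_succ, Equiv.Perm.mul_apply, Equiv.Perm.mul_apply, ih, hσ]
  obtain ⟨k, rfl | rfl⟩ := n.eq_nat_or_neg
  · exact_mod_cast h1 k x y
  · have h2 := h1 k ((σ ^ (-(k : ℤ))) x) ((σ ^ (-(k : ℤ))) y)
    have h3 : ∀ z, (σ ^ k) ((σ ^ (-(k : ℤ))) z) = z := by
      intro z
      rw [← zpow_natCast, ← zadd]
      simp
    rw [h3, h3] at h2
    exact h2.symm

theorem pinv_zpow {po : B → ℕ} (hpo : ∀ x, po (σ x) = po x) (n : ℤ) (x : B) :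
    po ((σ ^ n) x) = po x := by
  have h1 : ∀ (n : ℕ) (x : B), po ((σ ^ n) x) = po x := by
    intro n
    induction n with
    | zero => intro x; rfl
    | succ n ih =>
      intro x
      rw [pow_succ, Equiv.Perm.mul_apply, ih, hpo]
  obtain ⟨k, rfl | rfl⟩ := n.eq_nat_or_neg
  · exact_mod_cast h1 k x
  · have h2 := h1 k ((σ ^ (-(k : ℤ))) x)
    have h3 : ∀ z, (σ ^ k) ((σ ^ (-(k : ℤ))) z) = z := by
      intro z
      rw [← zpow_natCast, ← zadd]
      simp
    rw [h3] at h2
    exact h2.symm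

/-- **finite approximations** -/
theorem approx (hσ : ∀ x y, M (σ x) (σ y) = M x y) (po : B → ℕ) (hpo : ∀ x, po (σ x) = po x)
    (S : Finset B) (hS : ∀ x, ∃ s ∈ S, ∃ n : ℤ, (σ ^ n) s = x) :
    ∃ (T : Type) (_ : Finite T) (M' : CoxeterMatrix T) (po' : T → ℕ) (τ : Equiv.Perm T) (ι : B → T),
      (∀ x y, M' (τ x) (τ y) = M' x y) ∧ (∀ x, po' (τ x) = po' x) ∧ (∀ x, τ (ι x) = ι (σ x)) ∧
      (∀ x, po' (ι x) = po x) ∧ (∀ x ∈ S, ∀ y ∈ S, M' (ι x) (ι y) = M x y) ∧
      (∀ x ∈ S, ∀ y ∈ S, ι x = ι y → x = y) ∧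
      ∀ (A : Type) (κ : A → T), (∀ a b, M' (κ a) (κ b) ≠ 0) →
        ∃ j : A → B, (∀ a, ι (j a) = κ a) ∧ ∀ a b, M (j a) (j b) = M' (κ a) (κ b) := by
  classical
  obtain ⟨pos, hpos⟩ := exists_pos σ
  -- the bound for the distances
  obtain ⟨l, hl0, hl⟩ : ∃ l : ℤ, 0 < l ∧ ∀ x ∈ S, ∀ y ∈ S, |pos x - pos y| < l := by
    refine ⟨1 + ∑ p ∈ S ×ˢ S, |pos p.1 - pos p.2|, ?_, ?_⟩
    · have : 0 ≤ ∑ p ∈ S ×ˢ S, |pos p.1 - pos p.2| := Finset.sum_nonneg fun _ _ => abs_nonneg _
      omega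
    · intro x hx y hy
      have : |pos x - pos y| ≤ ∑ p ∈ S ×ˢ S, |pos p.1 - pos p.2| :=
        Finset.single_le_sum (f := fun p : B × B => |pos p.1 - pos p.2|)
          (fun _ _ => abs_nonneg _) (Finset.mk_mem_product hx hy)
      omega
  -- the period
  obtain ⟨N, hN0, hNl, hNf⟩ : ∃ N : ℤ, 0 < N ∧ 3 * l ≤ N ∧ ∀ x, ¬ Infi σ x → (σ ^ N) x = x := by
    have h1 : ∀ s : B, ∃ k : ℤ, 0 < k ∧ (¬ Infi σ s → (σ ^ k) s = s) := by
      intro s
      by_cases h : Infi σ s
      · exact ⟨1, one_pos, fun h' => absurd h h'⟩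
      · unfold Infi at h
        push Not at h
        obtain ⟨n, hn, hn0⟩ := h
        refine ⟨|n|, abs_pos.2 hn0, fun _ => ?_⟩
        rcases abs_choice n with h2 | h2
        · rw [h2, hn]
        · rw [h2]
          have h3 : (σ ^ (-n)) ((σ ^ n) s) = s := by rw [← zadd]; simp
          rwa [hn] at h3
    choose k hk0 hk using h1
    have hprod : 0 < ∏ s ∈ S, k s := Finset.prod_pos fun s _ => hk0 s
    refine ⟨3 * l * ∏ s ∈ S, k s, by positivity, ?_, ?_⟩
    · nlinarith
    · intro x hx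
      obtain ⟨s, hs, n, rfl⟩ := hS x
      rw [infi_zpow] at hx
      have h2 := hk s hx
      obtain ⟨c, hc⟩ : k s ∣ 3 * l * ∏ s ∈ S, k s := Dvd.dvd.mul_left (Finset.dvd_prod_of_mem k hs) _
      have h3 : ∀ c : ℤ, (σ ^ (k s * c)) s = s := by
        intro c
        rw [zpow_mul]
        exact Function.IsFixedPt.perm_zpow h2 c
      rw [← zadd, add_comm, zadd, hc, h3]
  have hNm : ∀ x (m : ℤ), ¬ Infi σ x → (σ ^ (N * m)) x = x := by
    intro x m hx
    rw [zpow_mul]
    exact Function.IsFixedPt.perm_zpow (hNf x hx) m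
  -- the quotient
  obtain ⟨ι, hι⟩ : ∃ ι : B → Quotient (per σ N), ι = Quotient.mk (per σ N) := ⟨_, rfl⟩
  have hιs : ∀ X : Quotient (per σ N), ∃ x, ι x = X := by
    intro X
    rw [hι]
    exact Quotient.exists_rep X
  have hιe : ∀ x y, ι x = ι y ↔ ∃ m : ℤ, (σ ^ (N * m)) x = y := by
    intro x y
    rw [hι]
    exact Quotient.eq
  have hιm : ∀ x (m : ℤ), ι ((σ ^ (N * m)) x) = ι x := fun x m => ((hιe _ _).2 ⟨m, rfl⟩).symm
  -- closeness
  let cl : B → B → Prop := fun x y => Infi σ x → Infi σ y → |pos x - pos y| < l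
  have cl_symm : ∀ x y, cl x y → cl y x := by
    intro x y h hy hx
    rw [abs_sub_comm]
    exact h hx hy
  have cl_refl : ∀ x, cl x x := by
    intro x _ _
    rw [sub_self, abs_zero]
    exact hl0
  have cl_pow : ∀ (n : ℤ) x y, cl x y → cl ((σ ^ n) x) ((σ ^ n) y) := by
    intro n x y h hx hy
    rw [infi_zpow] at hx hy
    rw [hpos x hx, hpos y hy]
    have h1 := h hx hy
    rwa [show pos x + n - (pos y + n) = pos x - pos y by ring]
  -- the labels are well defined
  have hwd : ∀ x y (a b : ℤ), cl x y → cl ((σ ^ (N * a)) x) ((σ ^ (N * b)) y) →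
      M ((σ ^ (N * a)) x) ((σ ^ (N * b)) y) = M x y := by
    intro x y a b h1 h2
    by_cases hx : Infi σ x
    · by_cases hy : Infi σ y
      · have h3 := h1 hx hy
        have h4 := h2 (hx.zpow _) (hy.zpow _)
        rw [hpos x hx, hpos y hy] at h4
        rw [abs_lt] at h3 h4
        have h5 : a = b := by
          rcases lt_trichotomy a b with h | h | h
          · exfalso; nlinarith
          · exact h
          · exfalso; nlinarith
        rw [h5, inv_zpow hσ]
      · rw [hNm y b hy]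
        have h3 : M ((σ ^ (N * a)) x) y = M ((σ ^ (N * a)) x) ((σ ^ (N * a)) y) := by
          rw [hNm y a hy]
        rw [h3, inv_zpow hσ]
    · rw [hNm x a hx]
      have h3 : M x ((σ ^ (N * b)) y) = M ((σ ^ (N * b)) x) ((σ ^ (N * b)) y) := by
        rw [hNm x b hx]
      rw [h3, inv_zpow hσ]
  let lab : Quotient (per σ N) → Quotient (per σ N) → ℕ → Prop := fun X Y m =>
    ∃ x y, ι x = X ∧ ι y = Y ∧ cl x y ∧ M x y = m
  let L : Quotient (per σ N) → Quotient (per σ N) → ℕ := fun X Y =>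
    if h : ∃ m, lab X Y m then h.choose else 0
  have hL : ∀ x y, cl x y → L (ι x) (ι y) = M x y := by
    intro x y h
    have hex : ∃ m, lab (ι x) (ι y) m := ⟨M x y, x, y, rfl, rfl, h, rfl⟩
    have h1 : L (ι x) (ι y) = hex.choose := dif_pos hex
    obtain ⟨x', y', hx', hy', hcl, hm⟩ := hex.choose_spec
    rw [h1, ← hm]
    obtain ⟨a, ha⟩ := (hιe _ _).1 hx'.symm
    obtain ⟨b, hb⟩ := (hιe _ _).1 hy'.symm
    rw [← ha, ← hb] at hcl ⊢
    exact hwd x y a b h hcl
  have hLex : ∀ X Y, L X Y ≠ 0 → ∃ x y, ι x = X ∧ ι y = Y ∧ cl x y := by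
    intro X Y h
    by_contra hcon
    apply h
    have : ¬ ∃ m, lab X Y m := by
      rintro ⟨m, x, y, hx, hy, hc, -⟩
      exact hcon ⟨x, y, hx, hy, hc⟩
    exact dif_neg this
  have hLsymm : ∀ X Y, L X Y = L Y X := by
    intro X Y
    by_cases h : ∃ x y, ι x = X ∧ ι y = Y ∧ cl x y
    · obtain ⟨x, y, rfl, rfl, hc⟩ := h
      rw [hL x y hc, hL y x (cl_symm _ _ hc), M.symmetric]
    · have h1 : L X Y = 0 := by
        by_contra h'
        exact h (hLex X Y h')
      have h2 : L Y X = 0 := by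
        by_contra h'
        obtain ⟨x, y, hx, hy, hc⟩ := hLex Y X h'
        exact h ⟨y, x, hy, hx, cl_symm _ _ hc⟩
      rw [h1, h2]
  let M' : CoxeterMatrix (Quotient (per σ N)) :=
    { M := Matrix.of L
      isSymm := by
        ext i j
        simp only [Matrix.transpose_apply, Matrix.of_apply]
        exact hLsymm _ _
      diagonal := by
        intro i
        obtain ⟨x, rfl⟩ := hιs i
        show L (ι x) (ι x) = 1
        rw [hL x x (cl_refl x), M.diagonal]
      off_diagonal := by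
        intro i j hij
        show L i j ≠ 1
        intro h1
        obtain ⟨x, y, rfl, rfl, hc⟩ := hLex i j (by rw [h1]; exact one_ne_zero)
        rw [hL x y hc] at h1
        exact M.off_diagonal x y (fun h => hij (congrArg ι h)) h1 }
  have hM' : ∀ X Y, M' X Y = L X Y := fun _ _ => rfl
  -- the exponents
  let po' : Quotient (per σ N) → ℕ := Quotient.lift po (by
    rintro x y ⟨m, rfl⟩
    exact (pinv_zpow hpo _ x).symm)
  have hpo' : ∀ x, po' (ι x) = po x := by
    intro x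
    rw [hι]
    rfl
  -- the permutation
  have hcomm : ∀ (n m : ℤ) x, (σ ^ m) ((σ ^ n) x) = (σ ^ n) ((σ ^ m) x) := by
    intro n m x
    rw [← zadd, ← zadd, add_comm]
  let sh : ℤ → Quotient (per σ N) → Quotient (per σ N) := fun n =>
    Quotient.map (fun x => (σ ^ n) x) (by
      rintro x y ⟨m, rfl⟩
      exact ⟨m, hcomm n (N * m) x⟩)
  have hsh : ∀ n x, sh n (ι x) = ι ((σ ^ n) x) := by
    intro n x
    rw [hι]
    rfl
  let τ : Equiv.Perm (Quotient (per σ N)) :=
    { toFun := sh 1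
      invFun := sh (-1)
      left_inv := by
        intro X
        obtain ⟨x, rfl⟩ := hιs X
        rw [hsh, hsh, ← zadd, neg_add_cancel, zpow_zero, Equiv.Perm.one_apply]
      right_inv := by
        intro X
        obtain ⟨x, rfl⟩ := hιs X
        rw [hsh, hsh, ← zadd, add_neg_cancel, zpow_zero, Equiv.Perm.one_apply] }
  have hτ : ∀ x, τ (ι x) = ι (σ x) := by
    intro x
    show sh 1 (ι x) = _
    rw [hsh, zpow_one]
  -- finiteness
  have hfin : Finite (Quotient (per σ N)) := by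
    have hsurj : Function.Surjective (fun p : S × Fin N.toNat => ι ((σ ^ ((p.2 : ℕ) : ℤ)) p.1.1)) := by
      intro X
      obtain ⟨x, rfl⟩ := hιs X
      obtain ⟨s, hs, n, rfl⟩ := hS x
      have h1 : 0 ≤ n % N := Int.emod_nonneg n hN0.ne'
      have h2 : n % N < N := Int.emod_lt_of_pos n hN0
      refine ⟨⟨⟨s, hs⟩, ⟨(n % N).toNat, by omega⟩⟩, ?_⟩
      show ι ((σ ^ (((n % N).toNat : ℕ) : ℤ)) s) = ι ((σ ^ n) s)
      rw [Int.toNat_of_nonneg h1, hιe]
      refine ⟨n / N, ?_⟩
      rw [← zadd, Int.mul_ediv_add_emod]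
    exact Finite.of_surjective _ hsurj
  refine ⟨Quotient (per σ N), hfin, M', po', τ, ι, ?_, ?_, hτ, hpo', ?_, ?_, ?_⟩
  · intro X Y
    rw [hM', hM']
    have key : ∀ (n : ℤ) X Y, (∃ x y, ι x = X ∧ ι y = Y ∧ cl x y) → L (sh n X) (sh n Y) = L X Y := by
      rintro n X Y ⟨x, y, rfl, rfl, hc⟩
      rw [hsh, hsh, hL x y hc, hL _ _ (cl_pow n x y hc), inv_zpow hσ]
    by_cases h : ∃ x y, ι x = X ∧ ι y = Y ∧ cl x y
    · exact key 1 X Y h
    · have h1 : L X Y = 0 := by
        by_contra h'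
        exact h (hLex X Y h')
      rw [h1]
      by_contra h'
      have h2 := key (-1) _ _ (hLex _ _ h')
      have h3 : ∀ X, sh (-1) (τ X) = X := fun X => τ.left_inv X
      rw [h3, h3, h1] at h2
      exact h' h2.symm
  · intro X
    obtain ⟨x, rfl⟩ := hιs X
    rw [hτ, hpo', hpo', hpo]
  · intro x hx y hy
    rw [hM']
    exact hL x y (fun _ _ => hl x hx y hy)
  · intro x hx y hy hxy
    obtain ⟨m, hm⟩ := (hιe _ _).1 hxy
    by_cases hi : Infi σ x
    · have h1 := hpos x hi (N * m)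
      rw [hm] at h1
      have h2 := hl x hx y hy
      rw [h1, abs_lt] at h2
      have h3 : m = 0 := by
        rcases lt_trichotomy m 0 with h | h | h
        · exfalso; nlinarith
        · exact h
        · exfalso; nlinarith
      rw [← hm, h3]
      simp
    · rw [← hm, hNm x m hi]
  · intro A κ hκ
    -- simultaneous representatives
    obtain ⟨j, hj1, hj2⟩ : ∃ j : A → B, (∀ a, ι (j a) = κ a) ∧ ∀ a b, cl (j a) (j b) := by
      choose r hr using fun a => hιs (κ a)
      by_cases hinf : ∃ a₀, Infi σ (r a₀)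
      · obtain ⟨a₀, ha₀⟩ := hinf
        have h1 : ∀ a, ∃ y, ι y = κ a ∧ cl (r a₀) y := by
          intro a
          obtain ⟨x, y, hx, hy, hc⟩ := hLex _ _ (hκ a₀ a)
          obtain ⟨m, hm⟩ := (hιe _ _).1 (hx.trans (hr a₀).symm)
          refine ⟨(σ ^ (N * m)) y, by rw [hιm, hy], ?_⟩
          rw [← hm]
          exact cl_pow _ _ _ hc
        choose j hj hc using h1
        refine ⟨j, hj, ?_⟩
        intro a b ha hb
        obtain ⟨x, y, hx, hy, hcl⟩ := hLex _ _ (hκ a b)
        obtain ⟨m, hm⟩ := (hιe _ _).1 ((hj a).trans hx.symm)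
        obtain ⟨n, hn⟩ := (hιe _ _).1 ((hj b).trans hy.symm)
        have h2 := hc a ha₀ ha
        have h3 := hc b ha₀ hb
        rw [← hm, ← hn] at hcl
        have h4 := hcl (ha.zpow _) (hb.zpow _)
        rw [hpos _ ha, hpos _ hb] at h4
        rw [abs_lt] at h2 h3 h4
        have h5 : m = n := by
          rcases lt_trichotomy m n with h | h | h
          · exfalso; nlinarith
          · exact h
          · exfalso; nlinarith
        rw [h5] at h4
        rw [abs_lt]
        constructor <;> linarith [h4.1, h4.2]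
      · refine ⟨r, hr, fun a b ha _ => absurd ⟨a, ha⟩ hinf⟩
    refine ⟨j, hj1, fun a b => ?_⟩
    rw [hM', ← hj1 a, ← hj1 b, hL _ _ (hj2 a b)]

end

end Run7.h952.AW
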