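import Pool.Agent.Run7.h952.AW.Approx
import Pool.Agent.Run7.h952.AR.Irr
import Pool.Agent.Q30.FJ.Crit

/-!
# Extensions of Artin groups and of Shephard groups
-/

set_option autoImplicit false
set_option linter.unusedSectionVars false
set_option linter.unusedSimpArgs false

namespace Run7.h952.AW

open Pool.Agent.Helper741 CoxeterSystem Pool.Agent.K7.H87.FJ6
open Pool.Agent.Y110.FJ
open Pool.Agent.Y462.SS (Closed)
open Run7.h952.AR

/-- parabolic subgroups, up to equality of the matrices -/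
theorem sub_inj {A B : Type} [Finite A] (M₁ : CoxeterMatrix A) (p₁ : A → ℕ) (M : CoxeterMatrix B)
    (po : B → ℕ) (ho : Adm M po) (ι : A → B) (hι : Function.Injective ι)
    (h : ∀ a b, M (ι a) (ι b) = M₁ a b) (hp : ∀ a, po (ι a) = p₁ a) :
    ∃ F : Sh M₁ p₁ →* Sh M po, Function.Injective F ∧ ∀ a, F (Sh.gen M₁ p₁ a) = Sh.gen M po (ι a) := by
  obtain rfl : M₁ = pull M ι hι := by
    cases M₁
    congr 1
    ext a b
    exact (h a b).symm
  obtain rfl : p₁ = po ∘ ι := by
    funext a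
    exact (hp a).symm
  exact ⟨inc M po ι hι, inc_injective' ho ι hι, fun a => inc_gen M po ι hι a⟩

section diag

variable {T : Type} {M : CoxeterMatrix T} {po : T → ℕ}

/-- the endomorphism given by a symmetry of the matrix -/
def dg (τ : T → T) (hτ : ∀ x y, M (τ x) (τ y) = M x y) (hp : ∀ x, po (τ x) = po x) :
    Sh M po →* Sh M po :=
  Sh.lift (fun x => Sh.gen M po (τ x)) (fun x y => by
    have h := Sh.rel (M := M) (p := po) (τ x) (τ y)
    rwa [hτ] at h) (fun x => by
    have h := Sh.pow (M := M) (p := po) (τ x)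
    rwa [hp] at h)

theorem dg_gen (τ : T → T) (hτ : ∀ x y, M (τ x) (τ y) = M x y) (hp : ∀ x, po (τ x) = po x) (x : T) :
    dg τ hτ hp (Sh.gen M po x) = Sh.gen M po (τ x) := Sh.lift_gen _ _ _ _

/-- the automorphism given by a symmetry of the matrix -/
def dga (τ : Equiv.Perm T) (hτ : ∀ x y, M (τ x) (τ y) = M x y) (hp : ∀ x, po (τ x) = po x) :
    MulAut (Sh M po) :=
  MonoidHom.toMulEquiv (dg τ hτ hp)
    (dg τ.symm (fun x y => by
      have h := hτ (τ.symm x) (τ.symm y)
      rw [τ.apply_symm_apply, τ.apply_symm_apply] at h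
      exact h.symm) (fun x => by
      have h := hp (τ.symm x)
      rw [τ.apply_symm_apply] at h
      exact h.symm))
    (by
      apply Sh.hom_ext
      intro x
      rw [MonoidHom.comp_apply, dg_gen, dg_gen, τ.symm_apply_apply]
      rfl)
    (by
      apply Sh.hom_ext
      intro x
      rw [MonoidHom.comp_apply, dg_gen, dg_gen, τ.apply_symm_apply]
      rfl)

theorem dga_gen (τ : Equiv.Perm T) (hτ : ∀ x y, M (τ x) (τ y) = M x y) (hp : ∀ x, po (τ x) = po x)
    (x : T) : dga τ hτ hp (Sh.gen M po x) = Sh.gen M po (τ x) := dg_gen τ hτ hp x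

theorem dga_pow (τ : Equiv.Perm T) (hτ : ∀ x y, M (τ x) (τ y) = M x y) (hp : ∀ x, po (τ x) = po x)
    (k : ℕ) (hk : τ ^ k = 1) : (dga τ hτ hp) ^ k = 1 := by
  have h1 : ∀ (k : ℕ) (x : T), ((dga τ hτ hp) ^ k) (Sh.gen M po x) = Sh.gen M po ((τ ^ k) x) := by
    intro k
    induction k with
    | zero => intro x; rfl
    | succ k ih =>
      intro x
      rw [pow_succ, MulAut.mul_apply, dga_gen, ih, pow_succ, Equiv.Perm.mul_apply]
  have h2 : ((dga τ hτ hp) ^ k).toMonoidHom = MonoidHom.id _ := by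
    apply Sh.hom_ext
    intro x
    show ((dga τ hτ hp) ^ k) (Sh.gen M po x) = Sh.gen M po x
    rw [h1, hk]
    rfl
  apply MulEquiv.ext
  intro x
  exact DFunLike.congr_fun h2 x

end diag

/-- powers of a product with an inner automorphism -/
theorem conj_mul_pow {P : Type} [Group P] (t : MulAut P) (a : P) (k : ℕ) :
    ∃ p, (MulAut.conj a * t) ^ k = MulAut.conj p * t ^ k := by
  induction k with
  | zero => exact ⟨1, by rw [pow_zero, pow_zero, map_one, one_mul]⟩
  | succ k ih =>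
    obtain ⟨p, hp⟩ := ih
    refine ⟨p * (t ^ k) a, ?_⟩
    have h1 : t ^ k * MulAut.conj a = MulAut.conj ((t ^ k) a) * t ^ k := by
      ext x
      rw [MulAut.mul_apply, MulAut.mul_apply, MulAut.conj_apply, MulAut.conj_apply, map_mul, map_mul,
        map_inv]
    rw [pow_succ, hp, map_mul, pow_succ, ← mul_assoc, mul_assoc (MulAut.conj p), h1]
    simp only [mul_assoc]

variable {C : ∀ (G : Type) [Group G], Prop}

/-- finitely many elements involve finitely many generators -/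
theorem fin_supp {B : Type} (M : CoxeterMatrix B) (po : B → ℕ) (D : Set (Sh M po)) (hD : D.Finite) :
    ∃ S : Finset B, ∀ x ∈ D, ∃ z : ShT M po S, inc M po (io S) (ij S) z = x := by
  classical
  have h1 : ∀ x : Sh M po, ∃ S : Finset B, ∃ z : ShT M po S, inc M po (io S) (ij S) z = x := by
    intro x
    obtain ⟨w, rfl⟩ := PresentedGroup.mk_surjective _ x
    obtain ⟨S, v, hv⟩ := ex_fr w
    exact ⟨S, PresentedGroup.mk _ v, by rw [mk_inc, hv]⟩
  choose S z hz using h1
  refine ⟨hD.toFinset.biUnion S, fun x hx => ?_⟩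
  have hle : S x ⊆ hD.toFinset.biUnion S :=
    Finset.subset_biUnion_of_mem S (hD.mem_toFinset.2 hx)
  refine ⟨incT M po hle (z x), ?_⟩
  have h2 : (inc M po (io (hD.toFinset.biUnion S)) (ij _)).comp (incT M po hle) =
      inc M po (io (S x)) (ij _) := by
    apply Sh.hom_ext
    intro s
    rw [MonoidHom.comp_apply, incT_gen, inc_gen, inc_gen]
  rw [← MonoidHom.comp_apply, h2, hz]

/-- **extensions of Shephard groups by groups of symmetries** -/
theorem ext_sh (hC : ClosedE C)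
    (hcox : ∀ (S : Type) [Finite S] (A : CoxeterMatrix S), C A.Group)
    (B : Type) (M : CoxeterMatrix B) (po : B → ℕ) (ho : Adm M po) (hS : C (Sh M po))
    (G : Type) [Group G] (i : Sh M po →* G) (hi : Function.Injective i) [i.range.Normal]
    (hQ : C (G ⧸ i.range))
    (hg : ∀ g : G, ∃ (σ : Equiv.Perm B) (n : Sh M po), (∀ x y, M (σ x) (σ y) = M x y) ∧
      (∀ x, po (σ x) = po x) ∧ ∀ b, g * i (Sh.gen M po b) * g⁻¹ = i (n * Sh.gen M po (σ b) * n⁻¹)) :
    C G := by
  classical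
  refine Q30.FJ.crit_loc hC G i.range hQ ?_
  intro g E hE hEN
  obtain ⟨σ, n, hσ, hpσ, hgn⟩ := hg g
  -- the support
  obtain ⟨S₀, hS₀⟩ := fin_supp M po (insert n (i ⁻¹' E))
    ((hE.preimage hi.injOn).insert n)
  obtain ⟨n₀, hn₀⟩ := hS₀ n (Set.mem_insert _ _)
  have hE₀ : ∀ x ∈ E, ∃ z : ShT M po S₀, i (inc M po (io S₀) (ij S₀) z) = x := by
    intro x hx
    obtain ⟨y, rfl⟩ := hEN hx
    obtain ⟨z, hz⟩ := hS₀ y (Set.mem_insert_of_mem _ hx)
    exact ⟨z, by rw [hz]⟩
  obtain ⟨S, hSdef⟩ : ∃ S : Finset B, S = S₀ ∪ S₀.image σ := ⟨_, rfl⟩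
  have hSS : S₀ ⊆ S := by rw [hSdef]; exact Finset.subset_union_left
  have hσS : ∀ s ∈ S₀, σ s ∈ S := by
    intro s hs
    rw [hSdef]
    exact Finset.mem_union_right _ (Finset.mem_image_of_mem _ hs)
  -- the union of the orbits
  obtain ⟨U, hU⟩ : ∃ U : Set B, U = {x | ∃ s ∈ S, ∃ n : ℤ, (σ ^ n) s = x} := ⟨_, rfl⟩
  have hUσ : ∀ x, σ x ∈ U ↔ x ∈ U := by
    intro x
    rw [hU]
    constructor
    · rintro ⟨s, hs, m, hm⟩
      refine ⟨s, hs, -1 + m, ?_⟩
      have h1 : (σ ^ (-1 : ℤ)) ((σ ^ (1 : ℤ)) x) = x := by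
        rw [← zadd, neg_add_cancel, zpow_zero, Equiv.Perm.one_apply]
      rw [zpow_one] at h1
      rw [zadd, hm, h1]
    · rintro ⟨s, hs, m, hm⟩
      refine ⟨s, hs, 1 + m, ?_⟩
      rw [zadd, hm, zpow_one]
  have hSU : ∀ s ∈ S, s ∈ U := by
    intro s hs
    rw [hU]
    exact ⟨s, hs, 0, rfl⟩
  obtain ⟨σU, hσU⟩ : ∃ σU : Equiv.Perm U, ∀ x : U, (σU x : B) = σ x :=
    ⟨σ.subtypePerm hUσ, fun x => rfl⟩
  have hσUz : ∀ (m : ℤ) (x : U), (((σU ^ m) x : U) : B) = (σ ^ m) x := by
    have hn : ∀ (m : ℕ) (x : U), (((σU ^ m) x : U) : B) = (σ ^ m) x := by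
      intro m
      induction m with
      | zero => intro x; rfl
      | succ m ih =>
        intro x
        rw [pow_succ, Equiv.Perm.mul_apply, ih, hσU, pow_succ, Equiv.Perm.mul_apply]
    intro m x
    obtain ⟨k, rfl | rfl⟩ := m.eq_nat_or_neg
    · exact_mod_cast hn k x
    · have h1 := hn k ((σU ^ (-(k : ℤ))) x)
      have h2 : (σU ^ k) ((σU ^ (-(k : ℤ))) x) = x := by
        rw [← zpow_natCast, ← zadd, add_neg_cancel, zpow_zero, Equiv.Perm.one_apply]
      rw [h2] at h1
      rw [h1, ← zpow_natCast, ← zadd, neg_add_cancel, zpow_zero, Equiv.Perm.one_apply]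
  obtain ⟨SU, hmem, hSUe⟩ : ∃ SU : Finset U, (∀ s : S, (⟨s.1, hSU s.1 s.2⟩ : U) ∈ SU) ∧
      ∀ x : U, ∃ s ∈ SU, ∃ m : ℤ, (σU ^ m) s = x := by
    have h1 : ∀ s : S, (⟨s.1, hSU s.1 s.2⟩ : U) ∈
        Finset.univ.image (fun s : S => (⟨s.1, hSU s.1 s.2⟩ : U)) :=
      fun s => Finset.mem_image.2 ⟨s, Finset.mem_univ _, rfl⟩
    refine ⟨Finset.univ.image (fun s : S => (⟨s.1, hSU s.1 s.2⟩ : U)), h1, ?_⟩
    rintro ⟨x, hx⟩
    have hx' := hx
    rw [hU] at hx'
    obtain ⟨s, hs, m, hm⟩ := hx'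
    refine ⟨⟨s, hSU s hs⟩, h1 ⟨s, hs⟩, m, ?_⟩
    apply Subtype.ext
    rw [hσUz]
    exact hm
  -- the approximation
  obtain ⟨T, _, M', po', τ, ι, hτ, hpτ, hτι, hpι, hMS, hιS, hlift⟩ := approx
    (M := pull M (Subtype.val : U → B) (vinj U)) (σ := σU)
    (fun x y => by
      show M (σU x) (σU y) = M x y
      rw [hσU, hσU, hσ])
    (po ∘ (Subtype.val : U → B))
    (fun x => by
      show po (σU x) = po x
      rw [hσU, hpσ])
    SU hSUe
  -- the exponents are admissible
  have ho' : Adm M' po' := by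
    constructor
    · intro X
      obtain ⟨j, hj, -⟩ := hlift Unit (fun _ => X) (fun _ _ => by
        rw [M'.diagonal]; exact one_ne_zero)
      rw [← hj (), hpι]
      exact ho.even _
    · intro X Y hXY
      have h0 : ∀ a b : Bool, M' (if a then X else Y) (if b then X else Y) ≠ 0 := by
        have h1 : M' X Y ≠ 0 := by
          intro h
          rw [h] at hXY
          exact absurd hXY (by decide)
        intro a b
        cases a <;> cases b
        · simp
        · simpa [M'.symmetric Y X] using h1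
        · simpa using h1
        · simp
      obtain ⟨j, hj, hjM⟩ := hlift Bool (fun a => if a then X else Y) h0
      have h1 : ι (j true) = X := hj true
      have h2 : ι (j false) = Y := hj false
      have h3 : M (j true) (j false) = M' X Y := hjM true false
      rw [← h1, ← h2, hpι, hpι]
      exact ho.odd _ _ (by rw [h3]; exact hXY)
  -- the group of the approximation is in the class
  have hP : C (Sh M' po') := by
    rw [main_inf hC hcox T M' po' ho']
    intro A _ κ hκ hκ0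
    obtain ⟨j, hj, hjM⟩ := hlift A κ hκ0
    have hji : Function.Injective j := by
      intro a b hab
      apply hκ
      rw [← hj a, ← hj b, hab]
    obtain ⟨F, hF, -⟩ := sub_inj (pull M' κ hκ) (po' ∘ κ) M po ho (fun a => ((j a : U) : B))
      (fun a b hab => hji (Subtype.ext hab)) (fun a b => hjM a b) (fun a => by
        show po ((j a : U) : B) = po' (κ a)
        rw [← hj a, hpι]
        rfl)
    exact hC.base.of_injective _ _ F hF hS
  -- the embeddings
  obtain ⟨F, hF, hFg⟩ := sub_inj (pull M (io S) (ij S)) (po ∘ io S) M' po' ho'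
    (fun s => ι ⟨s.1, hSU s.1 s.2⟩)
    (fun s t hst => Subtype.ext (congrArg (fun x : U => (x : B)) (hιS _ (hmem s) _ (hmem t) hst)))
    (fun s t => hMS _ (hmem s) _ (hmem t)) (fun s => hpι _)
  obtain ⟨J, hJ⟩ : ∃ J : ShT M po S →* G, J = i.comp (inc M po (io S) (ij S)) := ⟨_, rfl⟩
  have hJi : Function.Injective J := by
    rw [hJ]
    exact hi.comp (inc_injective' ho _ _)
  let b : ShT M po S₀ →* ShT M po S :=
    Sh.lift (fun z => Sh.gen _ _ ⟨σ z.1, hσS z.1 z.2⟩)
      (fun x y => by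
        have h := Sh.rel (M := pull M (io S) (ij S)) (p := po ∘ io S) ⟨σ x.1, hσS x.1 x.2⟩
          ⟨σ y.1, hσS y.1 y.2⟩
        have h1 : (pull M (io S) (ij S)) ⟨σ x.1, hσS x.1 x.2⟩ ⟨σ y.1, hσS y.1 y.2⟩ =
          (pull M (io S₀) (ij S₀)) x y := hσ x.1 y.1
        rw [h1] at h
        exact h)
      (fun x => by
        have h := Sh.pow (M := pull M (io S) (ij S)) (p := po ∘ io S) ⟨σ x.1, hσS x.1 x.2⟩
        have h1 : (po ∘ io S) ⟨σ x.1, hσS x.1 x.2⟩ = (po ∘ io S₀) x := hpσ x.1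
        rw [h1] at h
        exact h)
  have hb : ∀ z, b (Sh.gen _ _ z) = Sh.gen _ _ ⟨σ z.1, hσS z.1 z.2⟩ := fun z => Sh.lift_gen _ _ _ _
  have hJa : ∀ z, J (incT M po hSS z) = i (inc M po (io S₀) (ij S₀) z) := by
    intro z
    have h1 : J.comp (incT M po hSS) = i.comp (inc M po (io S₀) (ij S₀)) := by
      apply Sh.hom_ext
      intro s
      rw [hJ, MonoidHom.comp_apply, MonoidHom.comp_apply, MonoidHom.comp_apply, incT_gen, inc_gen,
        inc_gen]
    exact DFunLike.congr_fun h1 z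
  have hgJ : ∀ z, g * J (incT M po hSS z) * g⁻¹ =
      J (incT M po hSS n₀ * b z * (incT M po hSS n₀)⁻¹) := by
    intro z
    have h1 : (MulAut.conj g).toMonoidHom.comp (J.comp (incT M po hSS)) =
        (MulAut.conj (J (incT M po hSS n₀))).toMonoidHom.comp (J.comp b) := by
      apply Sh.hom_ext
      intro s
      show g * J (incT M po hSS (Sh.gen _ _ s)) * g⁻¹ =
        J (incT M po hSS n₀) * J (b (Sh.gen _ _ s)) * (J (incT M po hSS n₀))⁻¹
      rw [hJa, hJa, hn₀, inc_gen, hgn, hb, map_mul, map_mul, map_inv, hJ, MonoidHom.comp_apply,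
        inc_gen]
    have h2 := DFunLike.congr_fun h1 z
    rw [map_mul, map_mul, map_inv]
    exact h2
  have hle : Subgroup.closure (E ∪ (fun x => g * x * g⁻¹) '' E) ≤ J.range := by
    rw [Subgroup.closure_le]
    rintro y (hy | ⟨x, hx, rfl⟩)
    · obtain ⟨z, hz⟩ := hE₀ y hy
      exact ⟨incT M po hSS z, by rw [hJa, hz]⟩
    · obtain ⟨z, hz⟩ := hE₀ x hx
      exact ⟨incT M po hSS n₀ * b z * (incT M po hSS n₀)⁻¹, by
        rw [← hgJ, hJa, hz]⟩
  obtain ⟨k, hk0, hk⟩ : ∃ k : ℕ, 0 < k ∧ τ ^ k = 1 :=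
    ⟨orderOf τ, (isOfFinOrder_of_finite τ).orderOf_pos, pow_orderOf_eq_one τ⟩
  obtain ⟨p, hp⟩ := conj_mul_pow (dga τ hτ hpτ) (F (incT M po hSS n₀)) k
  rw [dga_pow τ hτ hpτ k hk, mul_one] at hp
  refine ⟨Sh M' po', inferInstance,
    (F.comp (MonoidHom.ofInjective hJi).symm.toMonoidHom).comp (Subgroup.inclusion hle),
    MulAut.conj (F (incT M po hSS n₀)) * dga τ hτ hpτ, k, p, hP, ?_, hk0, hp, ?_⟩
  · exact (hF.comp (MonoidHom.ofInjective hJi).symm.injective).comp (Subgroup.inclusion_injective hle)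
  · intro x y hx hy
    obtain ⟨z, hz⟩ := hE₀ x hx
    have hval : ∀ (u : ↥(Subgroup.closure (E ∪ (fun x => g * x * g⁻¹) '' E))) (v : ShT M po S),
        J v = u → ((F.comp (MonoidHom.ofInjective hJi).symm.toMonoidHom).comp
          (Subgroup.inclusion hle)) u = F v := by
      intro u v huv
      show F ((MonoidHom.ofInjective hJi).symm (Subgroup.inclusion hle u)) = F v
      congr 1
      rw [MulEquiv.symm_apply_eq]
      apply Subtype.ext
      exact huv.symm
    have hx1 : J (incT M po hSS z) = x := by rw [hJa, hz]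
    have hy1 : J (incT M po hSS n₀ * b z * (incT M po hSS n₀)⁻¹) = y := by
      rw [← hgJ, hx1, hy]
    rw [hval x _ hx1, hval y _ hy1, MulAut.mul_apply, MulAut.conj_apply, map_mul, map_mul, map_inv]
    congr 2
    have h1 : F.comp b = (dga τ hτ hpτ).toMonoidHom.comp (F.comp (incT M po hSS)) := by
      apply Sh.hom_ext
      intro s
      show F (b (Sh.gen _ _ s)) = dga τ hτ hpτ (F (incT M po hSS (Sh.gen _ _ s)))
      rw [hb, hFg, incT_gen, hFg, dga_gen, hτι]
      congr 2
      apply Subtype.ext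
      rw [hσU]
    exact DFunLike.congr_fun h1 z

end Run7.h952.AW
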