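import Pool.Agent.Run7.h952.AW.Cor

/-!
# Virtual braid groups on arbitrary sets
-/

set_option autoImplicit false
set_option linter.unusedSectionVars false
set_option linter.unusedSimpArgs false

namespace Run7.h952.AW

open Pool.Agent.Helper741 CoxeterSystem Pool.Agent.K7.H87.FJ6
open Pool.Agent.Y110.FJ
open Pool.Agent.Y462.SS (Closed)
open Run7.h952.AR

/-- connected finite partial injections are paths or cycles -/
theorem path_or_cycle {A : Type} [Finite A] [Nonempty A] (R : A → A → Prop)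
    (h1 : ∀ a b b', R a b → R a b' → b = b') (h2 : ∀ a a' b, R a b → R a' b → a = a')
    (h3 : ∀ a, ¬ R a a) (h4 : ∀ a b, R a b → ¬ R b a)
    (h5 : ∀ S : Set A, S.Nonempty → Sᶜ.Nonempty → ∃ x ∈ S, ∃ y, y ∉ S ∧ (R x y ∨ R y x)) :
    ∃ (n : ℕ) (e : Fin (n + 1) ≃ A), (∀ i j : Fin (n + 1), R (e i) (e j) ↔ (i : ℕ) + 1 = j) ∨
      (2 ≤ n ∧ ∀ i j : Fin (n + 1), R (e i) (e j) ↔ ((i : ℕ) + 1 = j ∨ ((i : ℕ) = n ∧ (j : ℕ) = 0))) := by
  classical
  have := Fintype.ofFinite A
  let P : ℕ → Prop := fun n => ∃ f : ℕ → A, (∀ i ≤ n, ∀ j ≤ n, f i = f j → i = j) ∧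
    ∀ i < n, R (f i) (f (i + 1))
  have hP0 : P 0 := by
    obtain ⟨a⟩ := ‹Nonempty A›
    exact ⟨fun _ => a, fun i hi j hj _ => by omega, fun i hi => by omega⟩
  have hPb : ∀ n, P n → n + 1 ≤ Fintype.card A := by
    rintro n ⟨f, hf, -⟩
    have h6 : Function.Injective (fun i : Fin (n + 1) => f i) := by
      intro i j hij
      exact Fin.ext (hf i (by omega) j (by omega) hij)
    have := Fintype.card_le_of_injective _ h6
    rwa [Fintype.card_fin] at this
  obtain ⟨n, ⟨f, hf, hR⟩, hn⟩ : ∃ n, P n ∧ ¬ P (n + 1) := by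
    by_contra hcon
    push Not at hcon
    have h6 : ∀ n, P n := fun n => by
      induction n with
      | zero => exact hP0
      | succ n ih => exact hcon n ih
    have h7 := hPb _ (h6 (Fintype.card A))
    omega
  have hsurj : ∀ a, ∃ i ≤ n, f i = a := by
    by_contra hcon
    obtain ⟨a, ha⟩ := not_forall.1 hcon
    obtain ⟨x, ⟨i, hi, hix⟩, y, hy, hxy⟩ := h5 {a | ∃ i ≤ n, f i = a} ⟨f 0, 0, by omega, rfl⟩ ⟨a, ha⟩
    have hy' : ∀ i ≤ n, f i ≠ y := fun i hi h => hy ⟨i, hi, h⟩
    apply hn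
    rcases hxy with hxy | hxy
    · have hin : i = n := by
        by_contra hne
        exact hy' (i + 1) (by omega) (h1 _ _ _ (hR i (by omega)) (hix ▸ hxy))
      refine ⟨fun j => if j ≤ n then f j else y, ?_, ?_⟩
      · intro j hj k hk hjk
        simp only at hjk
        split_ifs at hjk with h6 h7 h7
        · exact hf j h6 k h7 hjk
        · exact absurd hjk (hy' j h6)
        · exact absurd hjk.symm (hy' k h7)
        · omega
      · intro j hj
        simp only
        rw [if_pos (by omega : j ≤ n)]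
        split_ifs with h6
        · exact hR j (by omega)
        · have h7 : j = n := by omega
          rw [h7, ← hin, hix]
          exact hxy
    · have hi0 : i = 0 := by
        by_contra hne
        have h6 := hR (i - 1) (by omega)
        rw [show i - 1 + 1 = i by omega] at h6
        exact hy' (i - 1) (by omega) (h2 _ _ _ h6 (hix ▸ hxy))
      refine ⟨fun j => if j = 0 then y else f (j - 1), ?_, ?_⟩
      · intro j hj k hk hjk
        simp only at hjk
        split_ifs at hjk with h6 h7 h7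
        · omega
        · exact absurd hjk.symm (hy' (k - 1) (by omega))
        · exact absurd hjk (hy' (j - 1) (by omega))
        · have := hf (j - 1) (by omega) (k - 1) (by omega) hjk
          omega
      · intro j hj
        simp only
        rw [if_neg (by omega : ¬ j + 1 = 0)]
        split_ifs with h6
        · rw [h6, show 0 + 1 - 1 = 0 by omega, ← hi0, hix]
          exact hxy
        · have h7 := hR (j - 1) (by omega)
          rw [show j - 1 + 1 = j by omega] at h7
          rw [show j + 1 - 1 = j by omega]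
          exact h7
  have hbij : Function.Bijective (fun i : Fin (n + 1) => f i) := by
    constructor
    · intro i j hij
      exact Fin.ext (hf i (by omega) j (by omega) hij)
    · intro a
      obtain ⟨i, hi, hia⟩ := hsurj a
      exact ⟨⟨i, by omega⟩, hia⟩
  refine ⟨n, Equiv.ofBijective _ hbij, ?_⟩
  have he : ∀ i : Fin (n + 1), (Equiv.ofBijective _ hbij) i = f i := fun i => rfl
  simp only [he]
  have hlt : ∀ i j : Fin (n + 1), (i : ℕ) < n → (R (f i) (f j) ↔ (i : ℕ) + 1 = j) := by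
    intro i j hi
    constructor
    · intro h
      exact hf _ (by omega) _ (by omega) (h1 _ _ _ (hR i hi) h)
    · intro h
      rw [← h]
      exact hR i hi
  by_cases hc : R (f n) (f 0)
  · right
    have hn0 : n ≠ 0 := by
      rintro rfl
      exact h3 _ hc
    have hn1 : n ≠ 1 := by
      rintro rfl
      exact h4 _ _ hc (hR 0 (by omega))
    refine ⟨by omega, fun i j => ?_⟩
    by_cases hi : (i : ℕ) < n
    · rw [hlt i j hi]
      constructor
      · intro h; exact Or.inl h
      · rintro (h | ⟨h, -⟩)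
        · exact h
        · omega
    · have hin : (i : ℕ) = n := by omega
      rw [hin]
      constructor
      · intro h
        right
        exact ⟨rfl, hf _ (by omega) _ (by omega) (h1 _ _ _ h hc)⟩
      · rintro (h | ⟨-, h⟩)
        · omega
        · rw [h]; exact hc
  · left
    intro i j
    by_cases hi : (i : ℕ) < n
    · exact hlt i j hi
    · have hin : (i : ℕ) = n := by omega
      rw [hin]
      constructor
      · intro h
        exfalso
        by_cases hj : (j : ℕ) = 0
        · rw [hj] at h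
          exact hc h
        · have h6 := hR ((j : ℕ) - 1) (by omega)
          rw [show (j : ℕ) - 1 + 1 = j by omega] at h6
          have h7 := hf _ (by omega) _ (by omega) (h2 _ _ _ h6 h)
          omega
      · intro h
        omega

/-- the Coxeter matrix of type `Ã_{n-1}` on a cycle with `n` vertices -/
def cyc (n : ℕ) : CoxeterMatrix (Fin n) where
  M := Matrix.of fun i j : Fin n => if i = j then 1 else
    if (i : ℕ) + 1 = j ∨ (j : ℕ) + 1 = i ∨ ((i : ℕ) + 1 = n ∧ (j : ℕ) = 0) ∨
      ((j : ℕ) + 1 = n ∧ (i : ℕ) = 0) then 3 else 2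
  isSymm := by
    ext i j
    simp only [Matrix.transpose_apply, Matrix.of_apply]
    by_cases h : i = j
    · rw [if_pos h, if_pos h.symm]
    · rw [if_neg h, if_neg fun h' => h h'.symm]
      congr 1
      apply propext
      constructor <;> (intro h; omega)
  diagonal i := by simp
  off_diagonal i j h := by
    simp only [Matrix.of_apply, if_neg h]
    split_ifs <;> decide

/-- the ordered pairs of different elements -/
abbrev Arr (X : Type) : Type := {a : X × X // a.1 ≠ a.2}

open Classical in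
/-- the Coxeter matrix of the kernel of the virtual braid group -/
noncomputable def kb (X : Type) : CoxeterMatrix (Arr X) where
  M := Matrix.of fun a b : Arr X => if a = b then 1 else
    if (a.1.2 = b.1.1 ∧ b.1.2 ≠ a.1.1) ∨ (b.1.2 = a.1.1 ∧ a.1.2 ≠ b.1.1) then 3 else
    if a.1.1 ≠ b.1.1 ∧ a.1.1 ≠ b.1.2 ∧ a.1.2 ≠ b.1.1 ∧ a.1.2 ≠ b.1.2 then 2 else 0
  isSymm := by
    ext a b
    simp only [Matrix.transpose_apply, Matrix.of_apply]
    by_cases h : a = b
    · rw [if_pos h, if_pos h.symm]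
    · rw [if_neg h, if_neg fun h' => h h'.symm]
      congr 1
      · apply propext
        tauto
      · congr 1
        apply propext
        simp only [ne_eq, eq_comm]
        tauto
  diagonal i := by simp
  off_diagonal i j h := by
    simp only [Matrix.of_apply, if_neg h]
    split_ifs <;> decide

theorem kb_apply {X : Type} (a b : Arr X) (hab : a ≠ b) (h : kb X a b ≠ 0) :
    a.1.1 ≠ b.1.1 ∧ a.1.2 ≠ b.1.2 ∧ ¬ (a.1.2 = b.1.1 ∧ b.1.2 = a.1.1) ∧
    ((a.1.2 = b.1.1 ∨ b.1.2 = a.1.1) → kb X a b = 3) ∧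
    (¬ (a.1.2 = b.1.1 ∨ b.1.2 = a.1.1) → kb X a b = 2) := by
  classical
  obtain ⟨⟨x, y⟩, hxy⟩ := a
  obtain ⟨⟨z, w⟩, hzw⟩ := b
  simp only at hxy hzw
  have h1 : ∀ p q : Arr X, kb X p q = if p = q then 1 else
    if (p.1.2 = q.1.1 ∧ q.1.2 ≠ p.1.1) ∨ (q.1.2 = p.1.1 ∧ p.1.2 ≠ q.1.1) then 3 else
    if p.1.1 ≠ q.1.1 ∧ p.1.1 ≠ q.1.2 ∧ p.1.2 ≠ q.1.1 ∧ p.1.2 ≠ q.1.2 then 2 else 0 := by
    intro p q
    unfold kb
    simp only [Matrix.of_apply]
  rw [h1, if_neg hab] at h ⊢
  simp only at h ⊢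
  by_cases h2 : (y = z ∧ w ≠ x) ∨ (w = x ∧ y ≠ z)
  · rw [if_pos h2]
    rcases h2 with ⟨h3, h4⟩ | ⟨h3, h4⟩
    · subst h3
      refine ⟨fun h => hxy h, fun h => hzw h, fun h => h4 h.2, fun _ => rfl, fun h => absurd (Or.inl rfl) h⟩
    · subst h3
      refine ⟨fun h => hzw h.symm, fun h => hxy h.symm, fun h => h4 h.1, fun _ => rfl,
        fun h => absurd (Or.inr rfl) h⟩
  · rw [if_neg h2] at h ⊢
    by_cases h3 : x ≠ z ∧ x ≠ w ∧ y ≠ z ∧ y ≠ w
    · rw [if_pos h3]
      refine ⟨h3.1, h3.2.2.2, fun h => h3.2.2.1 h.1, ?_, fun _ => rfl⟩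
      rintro (h4 | h4)
      · exact absurd h4 h3.2.2.1
      · exact absurd h4.symm h3.2.1
    · rw [if_neg h3] at h
      exact absurd rfl h

/-- the irreducible parabolic subgroups without infinite labels have the types `A_n` and `Ã_n` -/
theorem kb_types {X A : Type} [Finite A] [Nonempty A] (ι : A → Arr X) (hι : Function.Injective ι)
    (h0 : ∀ i j, kb X (ι i) (ι j) ≠ 0)
    (hirr : ∀ S : Set A, S.Nonempty → Sᶜ.Nonempty → ∃ x ∈ S, ∃ y, y ∉ S ∧ kb X (ι x) (ι y) ≠ 2) :
    (∃ (n : ℕ) (e : Fin (n + 1) ≃ A), ∀ i j, kb X (ι (e i)) (ι (e j)) = CoxeterMatrix.A (n + 1) i j) ∨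
    (∃ (n : ℕ) (e : Fin (n + 1) ≃ A), 2 ≤ n ∧ ∀ i j, kb X (ι (e i)) (ι (e j)) = cyc (n + 1) i j) := by
  classical
  let R : A → A → Prop := fun a b => (ι a).1.2 = (ι b).1.1
  have hne : ∀ a b, a ≠ b → ι a ≠ ι b := fun a b h h' => h (hι h')
  have hk : ∀ a b, a ≠ b → _ := fun a b h => kb_apply (ι a) (ι b) (hne a b h) (h0 a b)
  obtain ⟨n, e, he⟩ := path_or_cycle R
    (fun a b b' h h' => by
      by_contra hbb
      exact (hk b b' hbb).1 (h.symm.trans h'))
    (fun a a' b h h' => by
      by_contra haa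
      exact (hk a a' haa).2.1 (h.trans h'.symm))
    (fun a h => (ι a).2 h.symm)
    (fun a b h h' => by
      have hab : a ≠ b := by
        rintro rfl
        exact (ι a).2 h.symm
      exact (hk a b hab).2.2.1 ⟨h, h'⟩)
    (fun S hS hS' => by
      obtain ⟨x, hx, y, hy, hxy⟩ := hirr S hS hS'
      refine ⟨x, hx, y, hy, ?_⟩
      have hne' : x ≠ y := by
        rintro rfl
        exact hy hx
      by_contra hcon
      exact hxy ((hk x y hne').2.2.2.2 hcon))
  have hlab : ∀ i j : Fin (n + 1), i ≠ j → kb X (ι (e i)) (ι (e j)) =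
      if R (e i) (e j) ∨ R (e j) (e i) then 3 else 2 := by
    intro i j hij
    have h1 := hk (e i) (e j) (fun h => hij (e.injective h))
    split_ifs with h2
    · exact h1.2.2.2.1 h2
    · exact h1.2.2.2.2 h2
  rcases he with he | ⟨hn, he⟩
  · left
    refine ⟨n, e, fun i j => ?_⟩
    have h2 : CoxeterMatrix.A (n + 1) i j = if i = j then 1
      else (if (j : ℕ) + 1 = i ∨ (i : ℕ) + 1 = j then 3 else 2) := rfl
    rw [h2]
    by_cases hij : i = j
    · rw [hij, if_pos rfl, (kb X).diagonal]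
    · rw [hlab i j hij, if_neg hij]
      congr 1
      rw [he, he, or_comm]
  · right
    refine ⟨n, e, hn, fun i j => ?_⟩
    have h2 : cyc (n + 1) i j = if i = j then 1 else
      if (i : ℕ) + 1 = j ∨ (j : ℕ) + 1 = i ∨ ((i : ℕ) + 1 = n + 1 ∧ (j : ℕ) = 0) ∨
      ((j : ℕ) + 1 = n + 1 ∧ (i : ℕ) = 0) then 3 else 2 := rfl
    rw [h2]
    by_cases hij : i = j
    · rw [hij, if_pos rfl, (kb X).diagonal]
    · rw [hlab i j hij, if_neg hij]
      congr 1
      rw [he, he]
      apply propext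
      constructor <;> (intro h; omega)

variable {C : ∀ (G : Type) [Group G], Prop}

theorem adm_zero {B : Type} (M : CoxeterMatrix B) : Adm M (fun _ => 0) :=
  ⟨fun _ => ⟨0, rfl⟩, fun _ _ _ => rfl⟩

theorem kb_mem (hC : ClosedE C)
    (hcox : ∀ (S : Type) [Finite S] (A : CoxeterMatrix S), C A.Group)
    (hA : ∀ n, C (Sh (CoxeterMatrix.A (n + 1)) (fun _ => 0)))
    (hA' : ∀ n, 2 ≤ n → C (Sh (cyc (n + 1)) (fun _ => 0))) (X : Type) :
    C (Sh (kb X) (fun _ => 0)) := by
  rw [main_irr hC hcox _ (kb X) _ (adm_zero _)]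
  intro A _ _ ι hι h0 hirr
  rcases kb_types ι hι h0 hirr with ⟨n, e, he⟩ | ⟨n, e, hn, he⟩
  · obtain ⟨F, hF, -⟩ := sub_inj (pull (kb X) ι hι) ((fun _ => 0) ∘ ι) (CoxeterMatrix.A (n + 1))
      (fun _ => 0) (adm_zero _) e.symm e.symm.injective (fun a b => by
        rw [← he, e.apply_symm_apply, e.apply_symm_apply]
        rfl) (fun _ => rfl)
    exact hC.base.of_injective _ _ F hF (hA n)
  · obtain ⟨F, hF, -⟩ := sub_inj (pull (kb X) ι hι) ((fun _ => 0) ∘ ι) (cyc (n + 1))
      (fun _ => 0) (adm_zero _) e.symm e.symm.injective (fun a b => by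
        rw [← he, e.apply_symm_apply, e.apply_symm_apply]
        rfl) (fun _ => rfl)
    exact hC.base.of_injective _ _ F hF (hA' n hn)

/-- **virtual braid groups on arbitrary sets** -/
theorem kb_semi (hC : ClosedE C)
    (hcox : ∀ (S : Type) [Finite S] (A : CoxeterMatrix S), C A.Group)
    (hA : ∀ n, C (Sh (CoxeterMatrix.A (n + 1)) (fun _ => 0)))
    (hA' : ∀ n, 2 ≤ n → C (Sh (cyc (n + 1)) (fun _ => 0))) (X Q : Type) [Group Q] [MulAction Q X]
    (α : Q →* MulAut (Sh (kb X) (fun _ => 0)))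
    (hα : ∀ (q : Q) (x y : X) (h : x ≠ y), α q (Sh.gen (kb X) (fun _ => 0) ⟨(x, y), h⟩) =
      Sh.gen (kb X) (fun _ => 0) ⟨(q • x, q • y), fun h' => h (MulAction.injective q h')⟩) :
    C (Sh (kb X) (fun _ => 0) ⋊[α] Q) ↔ C Q := by
  classical
  rw [semi_sh hC hcox _ (kb X) _ (adm_zero _) Q α ?_]
  · exact ⟨fun h => h.2, fun h => ⟨kb_mem hC hcox hA hA' X, h⟩⟩
  · intro q
    have hinj : Function.Injective fun x : X => q • x := MulAction.injective q
    let σ : Equiv.Perm (Arr X) :=
      { toFun := fun a => ⟨(q • a.1.1, q • a.1.2), fun h => a.2 (hinj h)⟩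
        invFun := fun a => ⟨(q⁻¹ • a.1.1, q⁻¹ • a.1.2), fun h => a.2 (MulAction.injective q⁻¹ h)⟩
        left_inv := fun a => by
          apply Subtype.ext
          simp
        right_inv := fun a => by
          apply Subtype.ext
          simp }
    refine ⟨σ, 1, ?_, fun _ => rfl, ?_⟩
    · intro a b
      have hq : ∀ x y : X, q • x = q • y ↔ x = y := fun x y => hinj.eq_iff
      have h1 : σ a = σ b ↔ a = b := σ.injective.eq_iff
      have h2 : ∀ a : Arr X, (σ a).1.1 = q • a.1.1 := fun _ => rfl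
      have h3 : ∀ a : Arr X, (σ a).1.2 = q • a.1.2 := fun _ => rfl
      unfold kb
      simp only [Matrix.of_apply, h1, h2, h3, hq, ne_eq]
    · rintro ⟨⟨x, y⟩, h⟩
      rw [one_mul, inv_one, mul_one, hα q x y h]
      rfl

end Run7.h952.AW
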